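import Pool.Agent.W534.PoleD

/-!
# The zeta function of the product of a variety and a hyperplane section: one order of pole

Let `X` be a smooth projective variety of dimension `n` over an algebraic closure of a finite field
and `Y` a smooth hyperplane section (more generally: `i : Y → X` with `i_* [Y] = [D]`, `D` with hard
Lefschetz, and weak Lefschetz for `i`). The middle of the odd-dimensional variety `X × Y` lies
between `n - 1` and `n`. The first part says: if the order of the zeta function of `X × Y` at
`s = n - 1` (or at `s = n`) is the negative of the rank of the cycles modulo numerical equivalence,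
over all sufficiently large finite fields, then this holds at all integers `s = j` for `X × Y`, and
this is equivalent to the statement that the generalised Frobenius eigenspace for `q^(n - 1)` in
`H^(2 n - 2)(X × Y)` is spanned by classes of cycles (no statement on homological and numerical
equivalence is needed). The second part says that then the formula also holds at all integers for
`X` and for `Y`, and the standard conjecture B holds for `X`.

The proof is in the starting files `Pool/Agent/W534`, whose theorems had not been handed in.
-/

open Pool.Agent.H914 Pool.Agent.H914.VarClass.Obj Pool.Agent.H447 Pool.Agent.W534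

universe u v

namespace Pool.Agent.Results.MP_557161_ag.HyperplaneProduct

/-- **One order of pole for the product of a variety and a hyperplane section gives all orders of
poles for the product and for both factors, and the conjecture B.** -/
theorem result {k : Type u} [Field k] {𝒱 : VarClass k} {ops : CycleOps 𝒱}
    (W : WeilCohomology.{u, v} ops) {p : ℕ} (Φ : FrobSystem W p) (σ : W.K →+* ℂ) (hp : 1 < p)
    (hRH : ∀ Z, RiemannHyp Φ σ Z) (X Y : 𝒱.Obj) (i : Y ⟶ X) (hdim : X.dim = Y.dim + 1)
    (D : X.Cycles) (hD : X.IsCyc 1 D) (hY : W.cl X (ops.push i Y.V.fundCycle) = W.cl X D)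
    (hHL : HardLefschetz W X D) (hWL : WeakLefschetz W i) :
    List.TFAE [
      PoleFormula Φ σ (X.prod Y) Y.dim,
      PoleFormula Φ σ (X.prod Y) X.dim,
      ∀ j ≤ (X.prod Y).dim, PoleFormula Φ σ (X.prod Y) j,
      SemisimpleTateIn Φ (X.prod Y) Y.dim] ∧
    (PoleFormula Φ σ (X.prod Y) Y.dim →
      LefschetzB W X D ∧ (∀ j ≤ X.dim, PoleFormula Φ σ X j) ∧
        ∀ j ≤ Y.dim, PoleFormula Φ σ Y j) :=
  ⟨pole_hyperplane hp hRH hdim hD hY hHL hWL, pole_factors hp hRH hdim hD hY hHL hWL⟩

end Pool.Agent.Results.MP_557161_ag.HyperplaneProduct
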