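import Pool.Agent.X297.SP

/-!
# One inequality at one integer decides Tate's formula for the poles of the zeta functions of all
powers of a variety

Let `p` be any prime number and `X` any smooth projective variety over an algebraic closure of the
field with `p` elements, of dimension `d` and with `∑ dim H^i(X) = b`. Let

`N = 2 b ^ 2 (2 b b! (2 d + 1)) ^ b`,  `M = 256 N ^ 2 b ^ (4 N + 4)`.

Let `z` be the order of the pole of the zeta function of the single power `X ^ (2 M + 2)` at the
single integer `(M + 1) d` (over all sufficiently large finite fields), and let `r` be the rank of the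
group of the cycles of codimension `(M + 1) d` on `X ^ (2 M + 2)` modulo numerical equivalence (so
`r ≤ z`, and Tate's formula for this variety and this integer is `z = r`). If only

`z < 3 r / 2`,

then Tate's formula holds for all powers of `X` and for all integers. The numbers `N` and `M` depend
only on `b` and `d`, not on `p` or the finite field.

The hypotheses are theorems for all smooth projective varieties: the Riemann hypothesis and the
integrality of the characteristic polynomials of the Frobenius endomorphism (Deligne), and the
integrality of the vertices of their Newton polygons (Katz-Messing, Dieudonne-Manin); `D` is a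
divisor with `D ^ d ≠ 0`, for example a hyperplane section. `W` is a Weil cohomology theory whose
coefficient field is algebraically closed and embedded in the complex numbers.

The proof: a multiplicative relation of the Frobenius eigenvalues is a sum of relations with at most
`N` factors, so that the Tate classes on all powers are generated by the Tate classes on
`X, X ^ 2, …, X ^ N`; and a nonalgebraic Tate class on one of these powers makes the Tate classes on
`X ^ (2 M + 2)` of the middle codimension almost twice as numerous as the algebraic ones, by an
effective estimate.
-/

open CategoryTheory AlgebraicGeometry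

universe u v

namespace Pool.Agent.Results.MP_557161_ag.OneInequality

open Pool.Agent.H914 Pool.Agent.H914.VarClass Pool.Agent.H914.VarClass.Obj
  Pool.Agent.H914.WeilCohomology Pool.Agent.W534 Pool.Agent.Y163 Pool.Agent.X297.UB

theorem result {k : Type u} [Field k] {𝒱 : VarClass k} {ops : CycleOps 𝒱}
    (W : WeilCohomology.{u, v} ops) [IsAlgClosed W.K] (σ : W.K →+* ℂ) (p : ℕ) [Fact p.Prime]
    (Φ : FrobSystem W p) (hRH : ∀ Z, RiemannHyp Φ σ Z) (X : 𝒱.Obj)
    (hX : IntegralNewton Φ σ X) (D : X.Cycles) (hD : X.IsCyc 1 D) (hbig : Big ops X D)
    {b N M : ℕ} (hb : b = Module.finrank W.K (W.H X)) (hN : N = powerBound b X.dim)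
    (hM : M = 256 * N ^ 2 * b ^ (4 * N + 4)) {z : ℕ}
    (hz : PoleOrderIs Φ σ (sq X M) ((M + 1) * X.dim) z)
    (hlt : 2 * z < 3 * numRank ops (sq X M) ((M + 1) * X.dim)) :
    ∀ n, ∀ j ≤ (pw X n).dim, PoleFormula Φ σ (pw X n) j :=
  Pool.Agent.X297.SP.main σ hRH hX hD hbig hb hN hM hz hlt

end Pool.Agent.Results.MP_557161_ag.OneInequality
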