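import Pool.Agent.X312.RL.Tate

/-!
# A gap law for the orders of the poles of the zeta functions of `Y × X ^ n`, `Y` fixed

Let `X` and `Y` be **any two** smooth projective varieties over an algebraic closure of a finite field.
For a variety `Z` and an integer `j` let `z(Z, j)` be the order of the pole at `s = j` of the zeta
function of `Z` over all sufficiently large finite fields, and let `ρ(Z, j)` be the rank of the group of
the cycles of codimension `j` on `Z` modulo numerical equivalence. Always `ρ(Z, j) ≤ z(Z, j)`, and the
formula of Tate for `Z` says that they are equal for all `j`. The total defect of `Z` is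
`δ(Z) = ∑ j, (z(Z, j) - ρ(Z, j))`, and `ρ(Z) = ∑ j, ρ(Z, j)`. Let `b` be the sum of the Betti numbers
of `X`. Then for all `m ≥ 1`: **the formula of Tate is true for `Y × X ^ m` in all degrees, or**

`δ(Y × X ^ n) ≥ (1 - 4 (m + 3) b ^ (m + 5) log (n + 1) / n) ρ(X ^ n)` **for all** `n ≥ 1`.

So the total defects of the varieties `Y × X ^ n` (`Y` fixed, `n` arbitrary) are all zero or they grow at
least like the numbers `ρ(X ^ n)`, and the formula of Tate for `Y × X ^ m` in all degrees follows from a
single inequality between integers for one `n`. Nothing is assumed on `X` and `Y`; no standard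
conjecture, no semisimplicity. The Riemann hypothesis (Deligne's theorem) is a hypothesis of the
theorem. The index law for the powers of one variety (the starting result `IndexLaw`) gives no
information on this family, since `Y` occurs only with exponent one; the formula may be true for all
powers of `X` and false for `Y × X`.

The proof. Identify the cohomology classes of `Y × Z` with the homomorphisms `H(Y) → H(Z)`. The algebraic
classes `N'(Z)` and the generalised Tate classes `N(Z)` form two families of subspaces which are stable
under algebraic correspondences `Z → Z'`. If they differ for `Z = X ^ m`, one takes an idempotent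
correspondence `g` on `P = X ^ m` of minimal rank which does not vanish on `N(P) / N'(P)` and an element
`z` of `g N(P)` which is not in `N'(P)`. A correspondence `x` with `x z ∈ N'(P)` has a nilpotent compression
`g x g`, so the trace of `g x` vanishes, and so `dim N(Z) / N'(Z)` is at least the rank of the trace form
`(u, v) ↦ tr (g v u)` for all `Z`; for `Z = X ^ n` this rank is compared with `ρ(X ^ n)` by the
log-convexity of the sequence of the ranks of the intersection forms and by the symmetric group.
-/

set_option autoImplicit false

open CategoryTheory AlgebraicGeometry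

universe u v

namespace Pool.Agent.Results.MP_557161_ag.RelativePoleLaw

open Pool.Agent.H914 Pool.Agent.W534 VarClass Obj WeilCohomology
open Pool.Agent.Y163 (PoleOrderIs)
open Pool.Agent.Y133.Half (pw)

variable {k : Type u} [Field k] {𝒱 : VarClass k}

/-- The rank of the cycles of all codimensions on `Z` modulo numerical equivalence. -/
noncomputable def totalRank (ops : CycleOps 𝒱) (Z : 𝒱.Obj) : ℕ :=
  ∑ j ∈ Finset.range (Z.dim + 1), numRank ops Z j

/-- The sum of the Betti numbers of `X`. -/
noncomputable def totalBetti {ops : CycleOps 𝒱} (W : WeilCohomology.{u, v} ops) (X : 𝒱.Obj) : ℕ :=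
  Module.finrank W.K (W.H X)

/-- **The gap law for the orders of the poles.** Here `pw X m` is the product of `m + 1` copies of
`X`. -/
theorem result {ops : CycleOps 𝒱} (W : WeilCohomology.{u, v} ops) (σ : W.K →+* ℂ) (p : ℕ)
    (hp : p.Prime) (Φ : FrobSystem W p) (hRH : ∀ Z : 𝒱.Obj, RiemannHyp Φ σ Z) (X Y : 𝒱.Obj) :
    ∃ z : 𝒱.Obj → ℕ → ℕ,
      -- `z Z j` is the order of the pole at `j`, and it is at least the rank of the cycles
      (∀ Z j, j ≤ Z.dim → PoleOrderIs Φ σ Z j (z Z j) ∧ numRank ops Z j ≤ z Z j) ∧
      -- the gap law
      ∀ m : ℕ, (∀ j, j ≤ (Y.prod (pw X m)).dim → PoleFormula Φ σ (Y.prod (pw X m)) j) ∨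
        ∀ n : ℕ, (totalRank ops (Y.prod (pw X n)) : ℝ) +
          (1 - 4 * (m + 4) * (totalBetti W X : ℝ) ^ (m + 6) * Real.log (n + 2) / (n + 1)) *
            totalRank ops (pw X n) ≤
          ∑ j ∈ Finset.range ((Y.prod (pw X n)).dim + 1), z (Y.prod (pw X n)) j := by
  obtain ⟨z, h1, h2⟩ := Pool.Agent.X312.RL.pole_rel hp.one_lt Φ σ hRH X Y
  refine ⟨z, h1, fun m => ?_⟩
  rcases h2 m with h | h
  · exact Or.inl h
  · right
    intro n
    have h3 := h n
    have h4 : Pool.Agent.X312.RL.cst (Module.finrank W.K (W.H X)) (m + 1) 2 n =
        4 * (m + 4) * (totalBetti W X : ℝ) ^ (m + 6) * Real.log (n + 2) / (n + 1) := by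
      unfold Pool.Agent.X312.RL.cst totalBetti
      push_cast
      ring
    rw [h4] at h3
    exact h3

end Pool.Agent.Results.MP_557161_ag.RelativePoleLaw
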